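import Pool.Agent.H22.CM.STP
import Pool.Agent.H99.CM.CLS
import Pool.Agent.H55.CM.COM
import Pool.Agent.H55.CM.FAM
import Pool.Agent.H55.CM.SOC
import Pool.Agent.H32.CM.STI
import Pool.Agent.H32.CM.TRO
import Pool.Agent.H31.CM.COV
import Pool.Agent.H31.CM.HPT
import Pool.Agent.H6.CM.EXC
import Pool.Agent.H42.CM.F16
import Pool.Agent.H42.CM.F32
import Pool.Agent.H42.CM.F8
import Pool.Agent.H4.CM.V72
import Pool.Agent.H4.CM.TWO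
import Pool.Agent.H91.CM.FAC
import Pool.Agent.H91.CM.RAD
import Pool.Agent.H50.CM.HAL
import Pool.Agent.H30.CM.HOLE
import Pool.Agent.H61.CM.SOL
import Pool.Agent.H38.CM.BIG
import Pool.Agent.H38.CM.STR

set_option autoImplicit false

namespace H22.CM

theorem a_FAM : S_FAM := H55.CM.t_FAM H30.CM.t_HOLE H32.CM.t_COO H32.CM.t_TRO H42.CM.t_F16 H42.CM.t_F32 t_STP
theorem a_HPT : S_HPT := Pool.Agent.H31.CM.t_HPT a_FAM H99.CM.t_CLS H32.CM.t_COO H32.CM.t_TRO H42.CM.t_F8 H38.CM.t_STR H6.CM.t_VCM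
  H6.CM.t_EXC H6.CM.t_E8
theorem a_TWO : S_TWO := H4.CM.t_TWO a_FAM H99.CM.t_CLS H38.CM.t_STR H32.CM.t_STI H6.CM.t_VCM
  Pool.Agent.H31.CM.t_COV H32.CM.t_TRO H4.CM.t_V72 a_HPT
theorem a_SOC : S_SOC := H55.CM.SOC.t_SOC H50.CM.t_HAL H91.CM.t_FAC H30.CM.t_HOC a_HPT
theorem a_COM : S_COM := H55.CM.t_COM H91.CM.t_FAC H30.CM.t_HOLE a_TWO
theorem a_SOL : S_SOL := H61.CM.t_SOL H91.CM.t_RAD (H38.CM.t_BIG H50.CM.t_NPS) a_SOC H50.CM.t_HAL a_COM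

end H22.CM
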