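import Pool.Agent.H22.CM.Stm

/-!
# CREW CM, second half: doubly transitive groups, symmetric and alternating groups
-/

set_option autoImplicit false

namespace H22.CM

open Pool.Agent.Y382.PAR

/-- **DTR** (130 lines). `G` acts doubly transitively on `G ⧸ H`, `[G : H] ≥ 3`.
Proof. Let `J` be the set of left cosets `≠ H`, `|J| ≥ 2`, with representatives `s_j`. As `s_j⁻¹ ∉ H`, `s_j⁻¹ = a s_j b`
with `a, b ∈ H` (both lie in the double coset `G ∖ H = H g H`); put `z_j = s_j b = a⁻¹ s_j⁻¹`. So `z_j H = s_j H = j` and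
`H z_j = H s_j⁻¹`; hence `H z_j = H z_j'` implies `j = j'` (common transversal). Let `w` be a fixed point free
permutation of `J`. For `i ∈ J`: `s_i⁻¹ s_{w i} ∉ H`, so it is `a z_i b` with `a, b ∈ H`; put `y_i = s_i a`; then
`y_i H = i` and `y_i z_i H = w i`. Let `θ` be a complete mapping of `H`. For `x ∉ H` let `i = x H`, `x = y_i h`,
`q = h θ(h)`, `j = q⁻¹ i ∈ J` and `f x = θ(h) z_j`. Then `f x ∉ H`, `x * f x = y_i q z_j` lies in the coset
`y_i q j = y_i i = y_i z_i H = w i`, so it is not in `H`. `f` is injective: `H z_j` gives `j`, then `θ(h)`, `h`, `q`, and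
`i = q j`. `x * f x` is injective: the coset `w i` gives `i`; then `q z_j` gives `j` (right coset `H z_j`) and `q`, hence
`h`. -/
def S_DTR : Prop := ∀ (G : Type) [Group G] [Finite G] (H : Subgroup G) (g : G), g ∉ H →
  (∀ x, x ∉ H → ∃ a ∈ H, ∃ b ∈ H, x = a * g * b) → 3 ≤ H.index → HasCM H → Hole G H

/-- **S4** (certificate, 24 points, see `Tab2.lean`). -/
def S_S4 : Prop := AllPar (Equiv.Perm (Fin 4))

/-- **A4** (certificate, 12 points, see `Tab2.lean`). -/
def S_A4 : Prop := AllPar (alternatingGroup (Fin 4))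

/-- **SYM** (100 lines, from DTR HOLE S4 by induction): `H` = stabiliser of the last point, isomorphic to
`Equiv.Perm (Fin n)` (`Equiv.Perm.decomposeFin`, `Equiv.Perm.viaFintypeEmbedding`, `Equiv.Perm.subtypeEquivSubtypePerm`, ...;
transport of `AllPar` along an isomorphism: library `Pool.Agent.Y77.PAR` in
`Pool/Graph/R_seed8/Y77/PAR/ISO.lean`). -/
def S_SYM : Prop := ∀ n : ℕ, 4 ≤ n → AllPar (Equiv.Perm (Fin n))

/-- **ALT** (150 lines, from DTR HOLE A4 by induction): `H` = stabiliser of the last point, isomorphic to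
`alternatingGroup (Fin n)`; for `n + 1 ≥ 5` points the group is doubly transitive. -/
def S_ALT : Prop := ∀ n : ℕ, 4 ≤ n → AllPar (alternatingGroup (Fin n))

/-- **NSO** (20 lines, from SOL and the library `t_EXT`). -/
def S_NSO : Prop := ∃ n : ℕ, ∀ (G : Type) [Group G] [Finite G] (N : Subgroup G) [N.Normal], Group.IsSolvable N →
  n ≤ Nat.card N → (∀ P : Sylow 2 N, (P : Subgroup N) = ⊥ ∨ ¬ IsCyclic (P : Subgroup N)) →
  HasCM (G ⧸ N) → AllPar G

/-- **FCT** (15 lines, from FAC HOLE). -/
def S_FCT : Prop := ∀ (G : Type) [Group G] [Finite G] (K P : Subgroup G), Odd (Nat.card K) →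
  (∀ x, x ∈ K → x ∈ P → x = 1) → Nat.card K * Nat.card P = Nat.card G → AllPar P → AllPar G

/-- **DTA** (15 lines, from DTR HOLE). -/
def S_DTA : Prop := ∀ (G : Type) [Group G] [Finite G] (H : Subgroup G) (g : G), g ∉ H →
  (∀ x, x ∉ H → ∃ a ∈ H, ∃ b ∈ H, x = a * g * b) → 3 ≤ H.index → AllPar H → AllPar G

/-- **PSL** (250 lines, optional, from DTA and the library `OddOrder.main`): for a finite field `F` with `q = |F| ≡ 3 mod 4`,
`q ≥ 7`, the group `PSL(2, q)`: `H` = image of the upper triangular matrices, of odd order `q (q - 1) / 2 ∉ {1, 3, 5}`;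
Bruhat decomposition: every matrix with lower left entry `c ≠ 0` is upper triangular times `w` times upper triangular. -/
def S_PSL : Prop := ∀ (F : Type) [Field F] [Fintype F] [DecidableEq F], Fintype.card F % 4 = 3 → 7 ≤ Fintype.card F →
  AllPar (Matrix.ProjectiveSpecialLinearGroup (Fin 2) F)

end H22.CM
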