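import Pool.Agent.H22.CM.Stm

/-!
# CREW CM, third part: the double coset method of Hall-Paige and Wilcox
-/

set_option autoImplicit false

namespace H22.CM

open Pool.Agent.Y382.PAR

/-- The double coset condition: permutations `φ, ψ` of the set of double cosets of `H`, preserving the sizes and the
trivial double coset, with `ψ D ⊆ D φ(D)` (equivalently these sets meet). -/
def DCond (G : Type) [Group G] (H : Subgroup G) : Prop :=
  ∃ φ ψ : Equiv.Perm (DoubleCoset.Quotient (H : Set G) (H : Set G)),
    φ (DoubleCoset.mk H H 1) = DoubleCoset.mk H H 1 ∧ ψ (DoubleCoset.mk H H 1) = DoubleCoset.mk H H 1 ∧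
    (∀ d, Nat.card {x : G // DoubleCoset.mk H H x = φ d} = Nat.card {x : G // DoubleCoset.mk H H x = d}) ∧
    (∀ d, Nat.card {x : G // DoubleCoset.mk H H x = ψ d} = Nat.card {x : G // DoubleCoset.mk H H x = d}) ∧
    ∀ d, ∃ x y : G, DoubleCoset.mk H H x = d ∧ DoubleCoset.mk H H y = φ d ∧ DoubleCoset.mk H H (x * y) = ψ d

/-- **DCG** (280 lines; may be split in DC1-DC4 below). Proof. `J = G ⧸ H` (left cosets), `s_j` representatives, `δ j` the
double coset of `j`. From DC1: `z_j ∈ j` with `H z_j = H z_j' → j = j'`. From DC2 for `φ`: a permutation `τ` of `J` with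
`δ (τ i) = φ (δ i)`. From DC3: a permutation `w` of `J` with `s_i⁻¹ s_{w i} ∈ φ (δ i)`, `δ (w i) = ψ (δ i)`. As
`s_i⁻¹ s_{w i} = a z_{τ i} b`, `a, b ∈ H`, put `y_i = s_i a`, so `y_i z_{τ i} H = w i`. Let `θ` be a complete mapping
of `H`. For `x ∉ H`: `i = x H`, `x = y_i h`, `q = h θ(h)`, `j = q⁻¹ τ(i)`, `f x = θ(h) z_j`. Then
`x * f x = y_i q z_j ∈ y_i q j = y_i τ(i) = y_i z_{τ i} H = w i`. `f x ∉ H` and `x * f x ∉ H` since `φ, ψ` fix the
trivial double coset. `f` is injective: `H z_j` gives `j`, then `θ(h)`, `h`, `q`, `τ i = q j`, `i`. `x * f x` is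
injective: the left coset `w i` gives `i`, then `q z_j` gives `j` and `q`, hence `h`. -/
def S_DCG : Prop := ∀ (G : Type) [Group G] [Finite G] (H : Subgroup G), DCond G H → HasCM H → Hole G H

/-- **DC1** (80 lines): common transversal of the left and the right cosets. Inside a double coset `D` the numbers of left
and of right cosets are both `|D| / |H|`; take a bijection `λ`; a left coset `x H` and a right coset `H y` of the same double
coset meet (`y = a x b`, `a⁻¹ y = x b`); `z_j ∈ j ∩ λ(j)`. -/
def S_DC1 : Prop := ∀ (G : Type) [Group G] [Finite G] (H : Subgroup G),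
  ∃ z : G ⧸ H → G, (∀ j, (z j : G ⧸ H) = j) ∧ ∀ j j', z j * (z j')⁻¹ ∈ H → j = j'

/-- **DC2** (60 lines): a size preserving permutation of the double cosets lifts to the left cosets. -/
def S_DC2 : Prop := ∀ (G : Type) [Group G] [Finite G] (H : Subgroup G)
  (φ : Equiv.Perm (DoubleCoset.Quotient (H : Set G) (H : Set G))),
  (∀ d, Nat.card {x : G // DoubleCoset.mk H H x = φ d} = Nat.card {x : G // DoubleCoset.mk H H x = d}) →
  ∃ τ : Equiv.Perm (G ⧸ H), ∀ x y : G, τ (x : G ⧸ H) = (y : G ⧸ H) →
    DoubleCoset.mk H H y = φ (DoubleCoset.mk H H x)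

/-- **DC3** (150 lines): the matching. For a double coset `d` join a left coset `i` in `d` with a left coset `k` in `ψ d`
if `s_i⁻¹ s_k ∈ φ d` (independent of the representatives, as `φ d` is a double coset). Left multiplication by `H` is
transitive on the left cosets in `d` and on those in `ψ d` and preserves the graph; so the degrees are constant on both
sides; the sides have the same size, so both degrees are equal, and positive (the last condition of `DCond`; the point
`x, x y`). Hall's theorem (`Finset.all_card_le_biUnion_card_iff_exists_injective`) gives an injective choice; glue over all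
`d`; an injective map of the finite set `G ⧸ H` to itself is a permutation. -/
def S_DC3 : Prop := ∀ (G : Type) [Group G] [Finite G] (H : Subgroup G)
  (φ ψ : Equiv.Perm (DoubleCoset.Quotient (H : Set G) (H : Set G))),
  (∀ d, Nat.card {x : G // DoubleCoset.mk H H x = ψ d} = Nat.card {x : G // DoubleCoset.mk H H x = d}) →
  (∀ d, ∃ x y : G, DoubleCoset.mk H H x = d ∧ DoubleCoset.mk H H y = φ d ∧ DoubleCoset.mk H H (x * y) = ψ d) →
  ∃ w : Equiv.Perm (G ⧸ H), ∀ x y : G, w (x : G ⧸ H) = (y : G ⧸ H) →
    DoubleCoset.mk H H y = ψ (DoubleCoset.mk H H x) ∧ DoubleCoset.mk H H (x⁻¹ * y) = φ (DoubleCoset.mk H H x)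

/-- **DC4** (120 lines): the assembly `S_DC1 → S_DC2 → S_DC3 → S_DCG`, proof see DCG. -/
def S_DC4 : Prop := S_DC1 → S_DC2 → S_DC3 → S_DCG

end H22.CM
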