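import Pool.Agent.H22.CM.Asm
import Pool.Agent.H22.CM.Stm2
import Pool.Agent.H22.CM.Stm3
import Pool.Agent.H83.CM.Short
import Pool.Agent.H6.CM.DTR
import Pool.Graph.R_seed8.Y77.PAR.ISO

/-!
# Chains of subgroups
-/

set_option autoImplicit false

namespace H22.CM

open Pool.Agent.Y382.PAR

/-- `H` satisfies the double coset condition in `G`, or it has a complement of odd order. -/
def Step (G : Type) [Group G] (H : Subgroup G) : Prop :=
  DCond G H ∨ ∃ K : Subgroup G, Odd (Nat.card K) ∧ (∀ x, x ∈ K → x ∈ H → x = 1) ∧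
    Nat.card K * Nat.card H = Nat.card G

/-- `Reaches A C`: there are subgroups `A = A₀ ≤ A₁ ≤ ... ≤ A_k = C` such that `Step` holds for each `A_i` in `A_{i+1}`. -/
inductive Reaches {G : Type} [Group G] : Subgroup G → Subgroup G → Prop
  | refl (A : Subgroup G) : Reaches A A
  | step {A B C : Subgroup G} : Reaches A B → B ≤ C → Step C (B.subgroupOf C) → Reaches A C

theorem step_allPar (hDCG : S_DCG) (G : Type) [Group G] [Finite G] (H : Subgroup G) (h : Step G H) (hH : AllPar H) :
    AllPar G := by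
  rcases h with h | ⟨K, h1, h2, h3⟩
  · exact H30.CM.t_HOLE G H (hDCG G H h (H83.CM.hasCM_of_allPar hH)) hH
  · exact H83.CM.t_FCT H91.CM.t_FAC H30.CM.t_HOLE G K H h1 h2 h3 hH

theorem reaches_allPar (hDCG : S_DCG) {G : Type} [Group G] [Finite G] {A B : Subgroup G} (h : Reaches A B)
    (hA : AllPar A) : AllPar B := by
  induction h with
  | refl => exact hA
  | step h1 h2 h3 ih =>
    apply step_allPar hDCG _ _ h3
    exact Pool.Agent.Y77.PAR.t_ISO _ _ (Subgroup.subgroupOfEquivOfLe h2).symm ih

end H22.CM
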