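import Pool.Agent.H22.CM.Chain
import Pool.Agent.H81.CM.DC
import Pool.Agent.H83.CM.DC2
import Pool.Agent.H6.CM.DC4
import Pool.Graph.R_seed8.Y382.PAR.Asm

set_option autoImplicit false

namespace H22.CM

theorem a_DCG : S_DCG := H6.CM.t_DC4 H81.CM.t_DC1 H83.CM.t_DC2 H81.CM.t_DC3

end H22.CM
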