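import Pool.Agent.H22.CM.STPb

/-!
# Part STP of the crew CM
-/

set_option autoImplicit false

namespace H22.CM

theorem four_mod {i : ℤ} (h : i ≡ 0 [ZMOD 4]) : ∃ j : ℤ, i = 4 * j := by
  obtain ⟨j, hj⟩ := Int.modEq_iff_dvd.1 h.symm
  exact ⟨j, by linarith⟩

theorem stp_core {G : Type} [Group G] [Finite G] (K : ℕ) (hK2 : 2 ≤ K) (hKe : Even K) (σ η θ : ℤ)
    (hσ : σ = 1 ∨ σ = -1) (c b : G) (hc : orderOf c = 8 * K) (hbz : b ∉ Subgroup.zpowers c)
    (hcard : Nat.card G = 16 * K)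
    (hbc : ∀ j : ℤ, b * c ^ j = c ^ ((σ + 4 * K * η) * j) * b) (hbb : b * b = c ^ (4 * K * θ)) :
    ∃ L : Subgroup G, c ^ 4 ∈ L ∧ b ∈ L ∧ Nat.card L = 4 * K ∧ Hole G L := by
  classical
  have hKpos : (0 : ℤ) < K := by exact_mod_cast (by omega : 0 < K)
  have hU : ∀ i j : ℤ, c ^ i = c ^ j ↔ i ≡ j [ZMOD (8 * K)] := by
    intro i j
    rw [zpow_eq_zpow_iff_modEq, hc]
    push_cast
    rfl
  have hb : ∀ i j : ℤ, c ^ i ≠ c ^ j * b := by
    intro i j h
    apply hbz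
    refine ⟨i - j, ?_⟩
    show c ^ (i - j) = b
    rw [sub_eq_neg_add, zpow_add, zpow_neg, h, inv_mul_cancel_left]
  have hpw : ∀ i j : ℤ, ∀ ε δ : ℕ, ε < 2 → δ < 2 → c ^ i * b ^ ε = c ^ j * b ^ δ → ε = δ ∧ i ≡ j [ZMOD (8 * K)] := by
    intro i j ε δ hε hδ h
    interval_cases ε <;> interval_cases δ <;> simp only [pow_zero, mul_one, pow_one] at h
    · exact ⟨rfl, (hU i j).1 h⟩
    · exact absurd h (hb i j)
    · exact absurd h.symm (hb j i)
    · exact ⟨rfl, (hU i j).1 (mul_right_cancel h)⟩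
  have hind : (Subgroup.zpowers c).index = 2 := by
    have h := (Subgroup.zpowers c).card_mul_index
    rw [Nat.card_zpowers, hc, hcard] at h
    have : 8 * K * (Subgroup.zpowers c).index = 8 * K * 2 := by rw [h]; ring
    exact Nat.eq_of_mul_eq_mul_left (by omega) this
  have hS : ∀ x : G, ∃ i : ℤ, ∃ ε : ℕ, ε < 2 ∧ x = c ^ i * b ^ ε := by
    intro x
    by_cases hx : x ∈ Subgroup.zpowers c
    · obtain ⟨i, hi⟩ := hx
      exact ⟨i, 0, by norm_num, by rw [pow_zero, mul_one]; exact hi.symm⟩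
    · have h1 : x * b⁻¹ ∈ Subgroup.zpowers c := by
        rw [Subgroup.mul_mem_iff_of_index_two hind]
        have : b⁻¹ ∉ Subgroup.zpowers c := fun h => hbz (by simpa using (Subgroup.zpowers c).inv_mem h)
        exact iff_of_false hx this
      obtain ⟨i, hi⟩ := h1
      refine ⟨i, 1, by norm_num, ?_⟩
      have hi' : c ^ i = x * b⁻¹ := hi
      rw [hi', pow_one, inv_mul_cancel_right]
  -- the subgroup
  let L : Subgroup G :=
    { carrier := {x | ∃ j : ℤ, x = c ^ (4 * j) ∨ x = c ^ (4 * j) * b}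
      one_mem' := ⟨0, Or.inl (by simp)⟩
      mul_mem' := by
        rintro x y ⟨i, hi | hi⟩ ⟨j, hj | hj⟩
        · exact ⟨i + j, Or.inl (by rw [hi, hj, ← zpow_add]; congr 1; ring)⟩
        · exact ⟨i + j, Or.inr (by rw [hi, hj, ← mul_assoc, ← zpow_add]; congr 2; ring)⟩
        · refine ⟨i + (σ + 4 * K * η) * j, Or.inr ?_⟩
          rw [hi, hj, mul_assoc, hbc, ← mul_assoc, ← zpow_add]
          congr 2; ring
        · refine ⟨i + (σ + 4 * K * η) * j + K * θ, Or.inl ?_⟩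
          have e : x * y = c ^ (4 * i) * (b * c ^ (4 * j)) * b := by rw [hi, hj]; simp only [mul_assoc]
          rw [e, hbc, ← mul_assoc, mul_assoc _ b b, hbb, ← zpow_add, ← zpow_add]
          congr 1; ring
      inv_mem' := by
        rintro x ⟨i, hi | hi⟩
        · exact ⟨-i, Or.inl (by rw [hi, ← zpow_neg]; congr 1; ring)⟩
        · refine ⟨(σ + 4 * K * η) * (-i) - K * θ, Or.inr ?_⟩
          rw [eq_comm, ← mul_eq_one_iff_eq_inv, hi]
          have e : c ^ (4 * ((σ + 4 * K * η) * (-i) - K * θ)) * b * (c ^ (4 * i) * b) =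
            c ^ (4 * ((σ + 4 * K * η) * (-i) - K * θ)) * (b * c ^ (4 * i)) * b := by simp only [mul_assoc]
          rw [e, hbc, ← mul_assoc, mul_assoc _ b b, hbb, ← zpow_add, ← zpow_add]
          convert zpow_zero c using 2
          ring }
  have hLm : ∀ x, x ∈ L ↔ ∃ j : ℤ, x = c ^ (4 * j) ∨ x = c ^ (4 * j) * b := fun x => Iff.rfl
  have hmod : ∀ i j : ℤ, i ≡ j [ZMOD (8 * K)] → i ≡ j [ZMOD 4] := by
    intro i j h
    have h2 : i ≡ j [ZMOD (4 * (2 * K))] := by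
      have : (4 * (2 * K) : ℤ) = 8 * K := by ring
      rw [this]; exact h
    exact h2.of_mul_right _
  have hL : ∀ i : ℤ, ∀ ε : ℕ, ε < 2 → (c ^ i * b ^ ε ∈ L ↔ i ≡ 0 [ZMOD 4]) := by
    intro i ε hε
    rw [hLm]
    constructor
    · rintro ⟨j, hj | hj⟩
      · have h1 : c ^ i * b ^ ε = c ^ (4 * j) * b ^ 0 := by rw [hj, pow_zero, mul_one]
        have h2 := hmod _ _ (hpw _ _ _ _ hε (by norm_num) h1).2
        exact h2.trans (Int.modEq_zero_iff_dvd.2 ⟨j, rfl⟩)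
      · have h1 : c ^ i * b ^ ε = c ^ (4 * j) * b ^ 1 := by rw [hj, pow_one]
        have h2 := hmod _ _ (hpw _ _ _ _ hε (by norm_num) h1).2
        exact h2.trans (Int.modEq_zero_iff_dvd.2 ⟨j, rfl⟩)
    · intro h
      obtain ⟨j, rfl⟩ := four_mod h
      refine ⟨j, ?_⟩
      interval_cases ε
      · left; rw [pow_zero, mul_one]
      · right; rw [pow_one]
  have hrow : ∀ x, x ∉ L → ∃ q : Fin 12, ∃ t : ℤ, 0 ≤ t ∧ t < K ∧
      x = c ^ (4 * (Hr q * K + t) + Rr q) * b ^ (Er q) := by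
    intro x hx
    obtain ⟨i, ε, hε, rfl⟩ := hS x
    rw [hL i ε hε] at hx
    have h8 : (0 : ℤ) < 8 * K := by linarith
    set i0 := i % (8 * K) with hi0
    have a1 : 0 ≤ i0 := Int.emod_nonneg _ h8.ne'
    have a2 : i0 < 8 * K := Int.emod_lt_of_pos _ h8
    have a3 : i ≡ i0 [ZMOD (8 * K)] := (Int.mod_modEq _ _).symm
    rw [(hU i i0).2 a3]
    have a4 : ¬ i0 ≡ 0 [ZMOD 4] := fun h => hx ((hmod _ _ a3).trans h)
    have a4' : i0 % 4 ≠ 0 := fun h => a4 h
    obtain ⟨h, hh, t, ht0, htK, ρ, hρ, e⟩ : ∃ h : ℤ, (h = 0 ∨ h = 1) ∧ ∃ t : ℤ, 0 ≤ t ∧ t < K ∧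
        ∃ ρ : ℤ, (ρ = 1 ∨ ρ = 2 ∨ ρ = 3) ∧ i0 = 4 * (h * K + t) + ρ := by
      by_cases hlt : i0 / 4 < K
      · refine ⟨0, Or.inl rfl, i0 / 4, by omega, hlt, i0 % 4, by omega, by omega⟩
      · refine ⟨1, Or.inr rfl, i0 / 4 - K, by omega, by omega, i0 % 4, by omega, by omega⟩
    rw [e]
    interval_cases ε
    · rcases hh with rfl | rfl <;> rcases hρ with rfl | rfl | rfl
      · exact ⟨0, t, ht0, htK, rfl⟩
      · exact ⟨4, t, ht0, htK, rfl⟩
      · exact ⟨8, t, ht0, htK, rfl⟩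
      · exact ⟨1, t, ht0, htK, rfl⟩
      · exact ⟨5, t, ht0, htK, rfl⟩
      · exact ⟨9, t, ht0, htK, rfl⟩
    · rcases hh with rfl | rfl <;> rcases hρ with rfl | rfl | rfl
      · exact ⟨2, t, ht0, htK, rfl⟩
      · exact ⟨6, t, ht0, htK, rfl⟩
      · exact ⟨10, t, ht0, htK, rfl⟩
      · exact ⟨3, t, ht0, htK, rfl⟩
      · exact ⟨7, t, ht0, htK, rfl⟩
      · exact ⟨11, t, ht0, htK, rfl⟩
  refine ⟨L, ⟨1, Or.inl (by rw [mul_one]; norm_cast)⟩, ⟨0, Or.inr (by simp)⟩, ?_, ?_⟩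
  · let φ : Fin (2 * K) × Fin 2 → L := fun p =>
      ⟨c ^ (4 * (p.1 : ℤ)) * b ^ (p.2 : ℕ), (hL _ _ p.2.2).2 (Int.modEq_zero_iff_dvd.2 ⟨_, rfl⟩)⟩
    have hφ : Function.Bijective φ := by
      constructor
      · rintro ⟨i, ε⟩ ⟨j, δ⟩ h
        have h1 := congrArg Subtype.val h
        obtain ⟨h2, h3⟩ := hpw _ _ _ _ ε.2 δ.2 h1
        have h4 : ε = δ := Fin.ext h2
        obtain ⟨w, hw⟩ := Int.modEq_iff_dvd.1 h3
        have hi := i.2
        have hj := j.2
        have hw2 : (j : ℤ) - i = 2 * K * w := by linarith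
        have hi' : (i : ℤ) < 2 * K := by exact_mod_cast hi
        have hj' : (j : ℤ) < 2 * K := by exact_mod_cast hj
        have hi0 : (0 : ℤ) ≤ i := by positivity
        have hj0 : (0 : ℤ) ≤ j := by positivity
        have hw0 : w = 0 := by
          have l7 : w < 1 := by nlinarith
          have l8 : -1 < w := by nlinarith
          omega
        rw [hw0, mul_zero] at hw2
        have : (i : ℤ) = j := by linarith
        have h5 : i = j := Fin.ext (by exact_mod_cast this)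
        rw [h4, h5]
      · rintro ⟨x, hx⟩
        have h8 : (0 : ℤ) < 2 * K := by linarith
        have key : ∀ j : ℤ, ∃ i : Fin (2 * K), c ^ (4 * (i : ℤ)) = c ^ (4 * j) := by
          intro j
          have a1 : 0 ≤ j % (2 * K) := Int.emod_nonneg _ h8.ne'
          have a2 : j % (2 * K) < 2 * K := Int.emod_lt_of_pos _ h8
          refine ⟨⟨(j % (2 * K)).toNat, by omega⟩, ?_⟩
          rw [hU]
          have e1 : (((⟨(j % (2 * K)).toNat, by omega⟩ : Fin (2 * K)) : ℕ) : ℤ) = j % (2 * K) := by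
            simp only
            exact Int.toNat_of_nonneg a1
          rw [e1]
          have e2 : j % (2 * K) ≡ j [ZMOD (2 * K)] := Int.mod_modEq _ _
          have e3 := e2.mul_left' (c := 4)
          have e4 : (4 * (2 * K) : ℤ) = 8 * K := by ring
          rw [e4] at e3
          exact e3
        obtain ⟨j, hj | hj⟩ := hx
        · obtain ⟨i, hi⟩ := key j
          refine ⟨(i, 0), Subtype.ext ?_⟩
          show c ^ (4 * (i : ℤ)) * b ^ ((0 : Fin 2) : ℕ) = x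
          rw [hi, hj, Fin.val_zero, pow_zero, mul_one]
        · obtain ⟨i, hi⟩ := key j
          refine ⟨(i, 1), Subtype.ext ?_⟩
          show c ^ (4 * (i : ℤ)) * b ^ ((1 : Fin 2) : ℕ) = x
          rw [hi, hj, Fin.val_one, pow_one]
    rw [← Nat.card_congr (Equiv.ofBijective φ hφ), Nat.card_prod, Nat.card_fin, Nat.card_fin]
    ring
  · have hKe' : Even (K : ℤ) := by exact_mod_cast hKe
    rcases hσ with rfl | rfl
    · exact hole_one (K : ℤ) η θ hKpos hKe' c b hU hb L hL hrow hbc hbb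
    · exact hole_neg (K : ℤ) η θ hKpos hKe' c b hU hb L hL hrow hbc hbb

theorem t_STP : S_STP := by
  intro G _ _ K r e hK2 hKe hFT hFam
  obtain ⟨c, b, hc, hbz, hbc, hbb, hcard⟩ := hFam
  have hc8 : orderOf c = 8 * K := by rw [hc]; ring
  have hcard' : Nat.card G = 16 * K := by rw [hcard]; ring
  have hzero : ∀ w : ℤ, c ^ (8 * K * w) = 1 := by
    intro w
    rw [zpow_mul]
    have : c ^ (8 * (K : ℤ)) = 1 := by
      have h := pow_orderOf_eq_one c
      rw [hc8] at h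
      rw [← h]
      norm_cast
    rw [this, one_zpow]
  have hbcz : ∀ j : ℤ, b * c ^ j = c ^ ((r : ℤ) * j) * b := by
    intro j
    have h1 : b * c * b⁻¹ = c ^ (r : ℤ) := by rw [hbc, mul_inv_cancel_right, zpow_natCast]
    have h2 : b * c ^ j * b⁻¹ = c ^ ((r : ℤ) * j) := by
      rw [zpow_mul, ← h1]
      exact (conj_zpow).symm
    rw [← h2, inv_mul_cancel_right]
  -- the parameters
  have hpar : ∃ σ η θ : ℤ, (σ = 1 ∨ σ = -1) ∧ (∀ j : ℤ, b * c ^ j = c ^ ((σ + 4 * K * η) * j) * b) ∧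
      b * b = c ^ (4 * (K : ℤ) * θ) ∧ ∃ r' e' : ℕ, FT K r' e' ∧ (∀ x : G, c ^ (4 * r') = c ^ (4 * r)) ∧
        c ^ (4 * e') = c ^ e := by
    have hK8 : 1 ≤ 4 * K := by omega
    rcases hFT with ⟨rfl, rfl⟩ | ⟨rfl, rfl⟩ | ⟨rfl, rfl⟩ | ⟨rfl, rfl⟩ | ⟨rfl, rfl⟩
    · refine ⟨1, 0, 0, Or.inl rfl, ?_, ?_, 1, 0, Or.inl ⟨rfl, rfl⟩, fun _ => rfl, ?_⟩
      · intro j
        have e9 : ((1 : ℕ) : ℤ) = 1 + 4 * K * 0 := by simp
        rw [hbcz, e9]
      · rw [hbb]; simp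
      · rfl
    · refine ⟨1, 1, 0, Or.inl rfl, ?_, ?_, 1, 0, Or.inl ⟨rfl, rfl⟩, fun _ => ?_, ?_⟩
      · intro j; rw [hbcz]; congr 2; push_cast; ring
      · rw [hbb]; simp
      · have h := hzero 2
        have e1 : (c ^ (4 * (4 * K + 1)) : G) = c ^ (4 * 1) * c ^ (8 * (K : ℤ) * 2) := by
          rw [← zpow_natCast, ← zpow_natCast, ← zpow_add]; congr 1; push_cast; ring
        rw [e1, h]
        simp
      · rfl
    · refine ⟨-1, 0, 0, Or.inr rfl, ?_, ?_, 2 * K - 1, 0, Or.inr (Or.inr (Or.inl ⟨rfl, rfl⟩)), fun _ => ?_, ?_⟩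
      · intro j
        rw [hbcz]
        have e1 : (((2 * (4 * K) - 1 : ℕ) : ℤ)) = 8 * K - 1 := by push_cast [Nat.cast_sub (show 1 ≤ 2 * (4 * K) by omega)]; ring
        rw [e1]
        have e2 : (8 * (K : ℤ) - 1) * j = (-1 + 4 * K * 0) * j + 8 * K * j := by ring
        rw [e2, zpow_add, hzero, mul_one]
      · rw [hbb]; simp
      · have h := hzero 3
        have e0 : ((4 * (2 * (4 * K) - 1) : ℕ) : ℤ) = 32 * K - 4 := by
          push_cast [Nat.cast_sub (show 1 ≤ 2 * (4 * K) by omega)]; ring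
        have e1 : ((4 * (2 * K - 1) : ℕ) : ℤ) = 8 * K - 4 := by
          push_cast [Nat.cast_sub (show 1 ≤ 2 * K by omega)]; ring
        rw [← zpow_natCast, ← zpow_natCast, e0, e1]
        have e2 : (32 * (K : ℤ) - 4) = (8 * K - 4) + 8 * K * 3 := by ring
        rw [e2, zpow_add, h, mul_one]
      · rfl
    · refine ⟨-1, 0, 1, Or.inr rfl, ?_, ?_, 2 * K - 1, K, Or.inr (Or.inr (Or.inr (Or.inl ⟨rfl, rfl⟩))), fun _ => ?_, ?_⟩
      · intro j
        rw [hbcz]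
        have e1 : (((2 * (4 * K) - 1 : ℕ) : ℤ)) = 8 * K - 1 := by push_cast [Nat.cast_sub (show 1 ≤ 2 * (4 * K) by omega)]; ring
        rw [e1]
        have e2 : (8 * (K : ℤ) - 1) * j = (-1 + 4 * K * 0) * j + 8 * K * j := by ring
        rw [e2, zpow_add, hzero, mul_one]
      · rw [hbb, ← zpow_natCast]; congr 1; push_cast; ring
      · have h := hzero 3
        have e0 : ((4 * (2 * (4 * K) - 1) : ℕ) : ℤ) = 32 * K - 4 := by
          push_cast [Nat.cast_sub (show 1 ≤ 2 * (4 * K) by omega)]; ring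
        have e1 : ((4 * (2 * K - 1) : ℕ) : ℤ) = 8 * K - 4 := by
          push_cast [Nat.cast_sub (show 1 ≤ 2 * K by omega)]; ring
        rw [← zpow_natCast, ← zpow_natCast, e0, e1]
        have e2 : (32 * (K : ℤ) - 4) = (8 * K - 4) + 8 * K * 3 := by ring
        rw [e2, zpow_add, h, mul_one]
      · rfl
    · refine ⟨-1, 1, 0, Or.inr rfl, ?_, ?_, 2 * K - 1, 0, Or.inr (Or.inr (Or.inl ⟨rfl, rfl⟩)), fun _ => ?_, ?_⟩
      · intro j
        rw [hbcz]
        congr 2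
        push_cast [Nat.cast_sub (show 1 ≤ 4 * K by omega)]
        ring
      · rw [hbb]; simp
      · have h := hzero 1
        have e0 : ((4 * (4 * K - 1) : ℕ) : ℤ) = 16 * K - 4 := by
          push_cast [Nat.cast_sub (show 1 ≤ 4 * K by omega)]; ring
        have e1 : ((4 * (2 * K - 1) : ℕ) : ℤ) = 8 * K - 4 := by
          push_cast [Nat.cast_sub (show 1 ≤ 2 * K by omega)]; ring
        rw [← zpow_natCast, ← zpow_natCast, e0, e1]
        have e2 : (16 * (K : ℤ) - 4) = (8 * K - 4) + 8 * K * 1 := by ring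
        rw [e2, zpow_add, h, mul_one]
      · rfl
  obtain ⟨σ, η, θ, hσ, h1, h2, r', e', hFT', hr', he'⟩ := hpar
  obtain ⟨L, hcL, hbL, hLc, hH⟩ := stp_core K hK2 hKe σ η θ hσ c b hc8 hbz hcard' h1 h2
  refine ⟨L, r', e', hH, hFT', ⟨c ^ 4, hcL⟩, ⟨b, hbL⟩, ?_, ?_, ?_, ?_, ?_⟩
  · rw [← Subgroup.orderOf_coe]
    show orderOf (c ^ 4) = 2 * K
    rw [orderOf_pow_of_dvd (by norm_num) (by rw [hc8]; exact ⟨2 * K, by ring⟩), hc8]
    omega
  · rintro ⟨j, hj⟩
    apply hbz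
    refine ⟨4 * j, ?_⟩
    have h3 := congrArg Subtype.val hj
    show c ^ (4 * j) = b
    have h4 : (c ^ 4) ^ j = b := h3
    rw [← h4, zpow_mul]
    norm_cast
  · apply Subtype.ext
    show b * c ^ 4 = (c ^ 4) ^ r' * b
    rw [← pow_mul, hr' 1]
    have h3 := hbcz 4
    have h4 : (c ^ (4 : ℤ) : G) = c ^ 4 := by norm_cast
    rw [← h4, h3]
    congr 1
    rw [← zpow_natCast]
    congr 1
    push_cast
    ring
  · apply Subtype.ext
    show b * b = (c ^ 4) ^ e'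
    rw [← pow_mul, he', hbb]
  · exact hLc

end H22.CM
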