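import Pool.Agent.H22.CM.Stm

/-!
# Part STP of the crew CM: the twelve pieces
-/

set_option autoImplicit false

namespace H22.CM

def Rr : Fin 12 → ℤ := ![1,1,1,1,2,2,2,2,3,3,3,3]
def Er : Fin 12 → ℕ := ![0,0,1,1,0,0,1,1,0,0,1,1]
def Hr : Fin 12 → ℤ := ![0,1,0,1,0,1,0,1,0,1,0,1]
def R1 : Fin 12 → ℤ := ![1,1,2,2,1,1,3,3,2,2,3,3]
def D1 : Fin 12 → ℕ := ![0,1,0,1,0,1,0,1,0,1,0,1]
def K1 : Fin 12 → ℤ := ![0,0,0,0,1,1,0,0,1,1,1,1]
def R2 : Fin 12 → ℤ := ![1,1,2,2,1,3,1,3,3,3,2,2]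
def D2 : Fin 12 → ℕ := ![0,1,0,1,0,1,1,0,0,1,0,1]
def K2 : Fin 12 → ℤ := ![0,0,0,0,1,0,1,0,1,1,1,1]
def Ss (r : ℤ) : ℤ := if r = 2 then 1 else 0

/-- the abstract argument -/
theorem hole_of {G : Type} [Group G] (K : ℤ) (hK : 0 < K) (hKe : Even K) (c b : G)
    (hU : ∀ i j : ℤ, c ^ i = c ^ j ↔ i ≡ j [ZMOD (8 * K)]) (hb : ∀ i j : ℤ, c ^ i ≠ c ^ j * b)
    (L : Subgroup G) (hL : ∀ i : ℤ, ∀ ε : ℕ, ε < 2 → (c ^ i * b ^ ε ∈ L ↔ i ≡ 0 [ZMOD 4]))
    (hrow : ∀ x, x ∉ L → ∃ q : Fin 12, ∃ t : ℤ, 0 ≤ t ∧ t < K ∧ x = c ^ (4 * (Hr q * K + t) + Rr q) * b ^ (Er q))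
    (R D' : Fin 12 → ℤ) (D W : Fin 12 → ℕ) (Kp Z : Fin 12 → ℤ) (τ : Fin 12 → ℤ → ℤ)
    (hR : ∀ q, 1 ≤ R q ∧ R q ≤ 3) (hD : ∀ q, D q < 2) (hW : ∀ q, W q < 2) (hKp : ∀ q, 0 ≤ Kp q ∧ Kp q ≤ 1)
    (hτ : ∀ q t, 0 ≤ t → t < K → 0 ≤ τ q t ∧ τ q t < K)
    (hτi : ∀ q t t', τ q t = τ q t' → t = t')
    (hcol : ∀ q q', R q = R q' → D q = D q' → Kp q = Kp q' → q = q')
    (hZ : ∀ q, ¬ Z q ≡ 0 [ZMOD 4])
    (hsym : ∀ q q', Z q ≡ Z q' [ZMOD 8] → W q = W q' → q = q')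
    (A : Fin 12 → ℤ → ℤ) (hA : ∀ q t t', Even (A q t - A q t'))
    (hmul : ∀ q t, c ^ (4 * (Hr q * K + t) + Rr q) * b ^ (Er q) *
      (c ^ (4 * (Ss (R q) + Kp q * K + τ q t) + R q) * b ^ (D q)) = c ^ (8 * t + 4 * K * A q t + Z q) * b ^ (W q)) :
    Hole G L := by
  have hpw : ∀ i j : ℤ, ∀ ε δ : ℕ, ε < 2 → δ < 2 → c ^ i * b ^ ε = c ^ j * b ^ δ → ε = δ ∧ i ≡ j [ZMOD (8 * K)] := by
    intro i j ε δ hε hδ h
    interval_cases ε <;> interval_cases δ <;> simp only [pow_zero, mul_one, pow_one] at h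
    · exact ⟨rfl, (hU i j).1 h⟩
    · exact absurd h (hb i j)
    · exact absurd h.symm (hb j i)
    · exact ⟨rfl, (hU i j).1 (mul_right_cancel h)⟩
  have hK8 : ∀ i j : ℤ, i ≡ j [ZMOD (8 * K)] → i ≡ j [ZMOD 8] := by
    intro i j h
    exact h.of_mul_right K
  have h84 : ∀ i j : ℤ, i ≡ j [ZMOD 8] → i ≡ j [ZMOD 4] := by
    intro i j h
    have : i ≡ j [ZMOD (4 * 2)] := by norm_num; exact h
    exact this.of_mul_right 2
  choose! q t ht0 htK hx using hrow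
  refine ⟨fun x => c ^ (4 * (Ss (R (q x)) + Kp (q x) * K + τ (q x) (t x)) + R (q x)) * b ^ (D (q x)), ?_, ?_, ?_⟩
  · intro x hxL
    constructor
    · intro h
      have h1 := (hL _ _ (hD _)).1 h
      have h2 := hR (q x)
      have h3 : (4 * (Ss (R (q x)) + Kp (q x) * K + τ (q x) (t x)) + R (q x)) % 4 = 0 % 4 := h1
      omega
    · intro h
      have e : x * (c ^ (4 * (Ss (R (q x)) + Kp (q x) * K + τ (q x) (t x)) + R (q x)) * b ^ (D (q x))) =
          c ^ (8 * t x + 4 * K * A (q x) (t x) + Z (q x)) * b ^ (W (q x)) := by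
        have h9 := hmul (q x) (t x)
        rw [← hx x hxL] at h9
        exact h9
      simp only at h
      rw [e] at h
      have h1 := (hL _ _ (hW _)).1 h
      apply hZ (q x)
      have h2 : (8 * t x + 4 * K * A (q x) (t x) + Z (q x)) ≡ Z (q x) [ZMOD 4] := by
        have : (8 * t x + 4 * K * A (q x) (t x) + Z (q x)) = Z (q x) + 4 * (2 * t x + K * A (q x) (t x)) := by ring
        rw [this]
        exact (Int.modEq_iff_dvd.2 ⟨-(2 * t x + K * A (q x) (t x)), by ring⟩)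
      exact h2.symm.trans h1
  · intro x hxL y hyL h
    simp only [Set.mem_ofPred_eq] at hxL hyL h
    obtain ⟨h1, h2⟩ := hpw _ _ _ _ (hD _) (hD _) h
    have hRR : R (q x) = R (q y) := by
      have h3 := h84 _ _ (hK8 _ _ h2)
      have h4 := hR (q x)
      have h5 := hR (q y)
      have h6 : (4 * (Ss (R (q x)) + Kp (q x) * K + τ (q x) (t x)) + R (q x)) % 4 =
        (4 * (Ss (R (q y)) + Kp (q y) * K + τ (q y) (t y)) + R (q y)) % 4 := h3
      omega
    obtain ⟨w, hw⟩ := Int.modEq_iff_dvd.1 h2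
    rw [hRR] at hw
    have hw2 : (Kp (q y) * K + τ (q y) (t y)) - (Kp (q x) * K + τ (q x) (t x)) = 2 * K * w := by linarith
    have b1 := hτ (q x) (t x) (ht0 x hxL) (htK x hxL)
    have b2 := hτ (q y) (t y) (ht0 y hyL) (htK y hyL)
    have k1 := hKp (q x)
    have k2 := hKp (q y)
    have hw0 : w = 0 := by
      have l1 : Kp (q y) * K + τ (q y) (t y) < 2 * K := by nlinarith
      have l2 : Kp (q x) * K + τ (q x) (t x) < 2 * K := by nlinarith
      have l3 : 0 ≤ Kp (q y) * K + τ (q y) (t y) := by nlinarith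
      have l4 : 0 ≤ Kp (q x) * K + τ (q x) (t x) := by nlinarith
      have l5 : 2 * K * w < 2 * K := by linarith
      have l6 : -(2 * K) < 2 * K * w := by linarith
      have l7 : w < 1 := by nlinarith
      have l8 : -1 < w := by nlinarith
      omega
    rw [hw0, mul_zero] at hw2
    have hKK : Kp (q x) = Kp (q y) := by
      have : (Kp (q y) - Kp (q x)) * K = τ (q x) (t x) - τ (q y) (t y) := by linarith
      have c1 : Kp (q y) - Kp (q x) < 1 := by nlinarith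
      have c2 : -1 < Kp (q y) - Kp (q x) := by nlinarith
      omega
    have hqq := hcol _ _ hRR h1 hKK
    rw [hqq] at hw2
    have htt := hτi (q y) (t x) (t y) (by linarith)
    rw [hx x hxL, hx y hyL, hqq, htt]
  · intro x hxL y hyL h
    simp only [Set.mem_ofPred_eq] at hxL hyL h
    have e : ∀ x, x ∉ L → x * (c ^ (4 * (Ss (R (q x)) + Kp (q x) * K + τ (q x) (t x)) + R (q x)) * b ^ (D (q x))) =
        c ^ (8 * t x + 4 * K * A (q x) (t x) + Z (q x)) * b ^ (W (q x)) := by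
      intro x hxL
      have h9 := hmul (q x) (t x)
      rw [← hx x hxL] at h9
      exact h9
    rw [e x hxL, e y hyL] at h
    obtain ⟨h1, h2⟩ := hpw _ _ _ _ (hW _) (hW _) h
    obtain ⟨K', hK'⟩ := hKe
    have hqq : q x = q y := by
      apply hsym _ _ _ h1
      have h3 := hK8 _ _ h2
      have h4 : ∀ x, (8 * t x + 4 * K * A (q x) (t x) + Z (q x)) ≡ Z (q x) [ZMOD 8] := by
        intro x
        have : (8 * t x + 4 * K * A (q x) (t x) + Z (q x)) = Z (q x) + 8 * (t x + K' * A (q x) (t x)) := by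
          rw [hK']; ring
        rw [this]
        exact (Int.modEq_iff_dvd.2 ⟨-(t x + K' * A (q x) (t x)), by ring⟩)
      exact (h4 x).symm.trans (h3.trans (h4 y))
    rw [hqq] at h2
    obtain ⟨w, hw⟩ := Int.modEq_iff_dvd.1 h2
    obtain ⟨v, hv⟩ := hA (q y) (t y) (t x)
    have hw2 : t y - t x = K * (w - v) := by
      have : 8 * (t y - t x) = 8 * (K * (w - v)) := by
        have h5 : A (q y) (t y) = A (q y) (t x) + (v + v) := by linarith
        rw [h5] at hw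
        linear_combination hw
      linarith
    have b1 := ht0 x hxL
    have b2 := htK x hxL
    have b3 := ht0 y hyL
    have b4 := htK y hyL
    have hwv : w - v = 0 := by
      have l7 : w - v < 1 := by nlinarith
      have l8 : -1 < w - v := by nlinarith
      omega
    rw [hwv, mul_zero] at hw2
    have htt : t x = t y := by linarith
    rw [hx x hxL, hx y hyL, hqq, htt]

end H22.CM
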