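import Pool.Agent.H22.CM.STPa

/-!
# Part STP of the crew CM: the two tables
-/

set_option autoImplicit false

namespace H22.CM

section
variable {G : Type} [Group G] (K : ℤ) (c b : G) (σ η θ : ℤ)

theorem mul_zero_el (i j : ℤ) (D : ℕ) : c ^ i * b ^ 0 * (c ^ j * b ^ D) = c ^ (i + j) * b ^ D := by
  rw [pow_zero, mul_one, ← mul_assoc, zpow_add]

theorem mul_one_zero (hbc : ∀ j : ℤ, b * c ^ j = c ^ ((σ + 4 * K * η) * j) * b) (i j : ℤ) :
    c ^ i * b ^ 1 * (c ^ j * b ^ 0) = c ^ (i + (σ + 4 * K * η) * j) * b ^ 1 := by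
  rw [pow_zero, mul_one, pow_one, mul_assoc, hbc, ← mul_assoc, zpow_add]

theorem mul_one_one (hbc : ∀ j : ℤ, b * c ^ j = c ^ ((σ + 4 * K * η) * j) * b)
    (hbb : b * b = c ^ (4 * K * θ)) (i j : ℤ) :
    c ^ i * b ^ 1 * (c ^ j * b ^ 1) = c ^ (i + (σ + 4 * K * η) * j + 4 * K * θ) * b ^ 0 := by
  have h : c ^ i * b ^ 1 * (c ^ j * b ^ 1) = c ^ i * (b * c ^ j) * b := by
    simp only [pow_one, mul_assoc]
  rw [h, hbc, pow_zero, mul_one, zpow_add, zpow_add, ← hbb]
  simp only [mul_assoc]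

end

def JJ (K : ℤ) (R Kp : Fin 12 → ℤ) (τ : Fin 12 → ℤ → ℤ) (q : Fin 12) (t : ℤ) : ℤ :=
  4 * (Ss (R q) + Kp q * K + τ q t) + R q

theorem hole_one {G : Type} [Group G] (K η θ : ℤ) (hK : 0 < K) (hKe : Even K) (c b : G)
    (hU : ∀ i j : ℤ, c ^ i = c ^ j ↔ i ≡ j [ZMOD (8 * K)]) (hb : ∀ i j : ℤ, c ^ i ≠ c ^ j * b)
    (L : Subgroup G) (hL : ∀ i : ℤ, ∀ ε : ℕ, ε < 2 → (c ^ i * b ^ ε ∈ L ↔ i ≡ 0 [ZMOD 4]))
    (hrow : ∀ x, x ∉ L → ∃ q : Fin 12, ∃ t : ℤ, 0 ≤ t ∧ t < K ∧ x = c ^ (4 * (Hr q * K + t) + Rr q) * b ^ (Er q))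
    (hbc : ∀ j : ℤ, b * c ^ j = c ^ ((1 + 4 * K * η) * j) * b) (hbb : b * b = c ^ (4 * K * θ)) : Hole G L := by
  refine hole_of K hK hKe c b hU hb L hL hrow R1 R1 D1 (fun q => (Er q + D1 q) % 2) K1
    (fun q => 4 * Ss (R1 q) + Rr q + R1 q) (fun q t => t) ?_ ?_ ?_ ?_ ?_ ?_ ?_ ?_ ?_
    (fun q t => Hr q + K1 q + (Er q : ℤ) * (η * JJ K R1 K1 (fun q t => t) q t + (D1 q : ℤ) * θ)) ?_ ?_
  · decide
  · decide
  · intro q; exact Nat.mod_lt _ (by norm_num)
  · decide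
  · intro q t h1 h2; exact ⟨h1, h2⟩
  · intro q t t' h; exact h
  · decide
  · decide
  · decide
  · intro q t t'
    refine ⟨(Er q : ℤ) * η * 2 * (t - t'), ?_⟩
    unfold JJ
    ring
  · intro q t
    have hE : Er q = 0 ∨ Er q = 1 := by revert q; decide
    have hD : D1 q = 0 ∨ D1 q = 1 := by revert q; decide
    rcases hE with hE | hE
    · rw [hE, mul_zero_el]
      have hW : (0 + D1 q) % 2 = D1 q := by rcases hD with h | h <;> rw [h]
      simp only [hW]
      congr 2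
      push_cast
      ring
    · rcases hD with hD | hD
      · rw [hE, hD, mul_one_zero K c b 1 η hbc]
        simp only [show (1 + 0) % 2 = 1 from rfl]
        congr 2
        unfold JJ
        push_cast
        ring
      · rw [hE, hD, mul_one_one K c b 1 η θ hbc hbb]
        simp only [show (1 + 1) % 2 = 0 from rfl]
        congr 2
        unfold JJ
        push_cast
        ring

theorem hole_neg {G : Type} [Group G] (K η θ : ℤ) (hK : 0 < K) (hKe : Even K) (c b : G)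
    (hU : ∀ i j : ℤ, c ^ i = c ^ j ↔ i ≡ j [ZMOD (8 * K)]) (hb : ∀ i j : ℤ, c ^ i ≠ c ^ j * b)
    (L : Subgroup G) (hL : ∀ i : ℤ, ∀ ε : ℕ, ε < 2 → (c ^ i * b ^ ε ∈ L ↔ i ≡ 0 [ZMOD 4]))
    (hrow : ∀ x, x ∉ L → ∃ q : Fin 12, ∃ t : ℤ, 0 ≤ t ∧ t < K ∧ x = c ^ (4 * (Hr q * K + t) + Rr q) * b ^ (Er q))
    (hbc : ∀ j : ℤ, b * c ^ j = c ^ ((-1 + 4 * K * η) * j) * b) (hbb : b * b = c ^ (4 * K * θ)) : Hole G L := by
  refine hole_of K hK hKe c b hU hb L hL hrow R2 R2 D2 (fun q => (Er q + D2 q) % 2) K2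
    (fun q => if Er q = 0 then 4 * Ss (R2 q) + Rr q + R2 q else 4 - 4 * Ss (R2 q) + Rr q - R2 q)
    (fun q t => if Er q = 0 then t else K - 1 - t) ?_ ?_ ?_ ?_ ?_ ?_ ?_ ?_ ?_
    (fun q t => if Er q = 0 then Hr q + K2 q else Hr q - K2 q - 1 +
      (η * JJ K R2 K2 (fun q t => if Er q = 0 then t else K - 1 - t) q t + (D2 q : ℤ) * θ)) ?_ ?_
  · decide
  · decide
  · intro q; exact Nat.mod_lt _ (by norm_num)
  · decide
  · intro q t h1 h2
    split_ifs
    · exact ⟨h1, h2⟩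
    · constructor <;> omega
  · intro q t t' h
    split_ifs at h
    · exact h
    · omega
  · decide
  · decide
  · decide
  · intro q t t'
    split_ifs with hE
    · exact ⟨0, by ring⟩
    · refine ⟨η * 2 * (t' - t), ?_⟩
      unfold JJ
      simp only [hE, if_false]
      ring
  · intro q t
    have hE : Er q = 0 ∨ Er q = 1 := by revert q; decide
    have hD : D2 q = 0 ∨ D2 q = 1 := by revert q; decide
    rcases hE with hE | hE
    · simp only [hE, if_true]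
      rw [mul_zero_el]
      have hW : (0 + D2 q) % 2 = D2 q := by rcases hD with h | h <;> rw [h]
      rw [hW]
      congr 2
      ring
    · have h10 : ¬ ((1 : ℕ) = 0) := by norm_num
      rcases hD with hD | hD
      · simp only [hE, hD, h10, if_false]
        rw [mul_one_zero K c b (-1) η hbc]
        congr 2
        unfold JJ
        simp only [hE, h10, if_false]
        push_cast
        ring
      · simp only [hE, hD, h10, if_false]
        rw [mul_one_one K c b (-1) η θ hbc hbb]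
        congr 2
        unfold JJ
        simp only [hE, h10, if_false]
        push_cast
        ring

end H22.CM
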