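import Pool.Agent.H22.CM.Final

/-!
# Parities of complete mappings: all large solvable groups

For a complete mapping `f` of a finite group `G` with orthomorphism `F x = x f(x)` there are four possibilities for the
pair of signs of `f` and `F`. There is `n` such that all four occur for every solvable group of order at least `n` which
satisfies the Hall-Paige condition (Sylow 2-subgroups trivial or not cyclic). More generally all four occur for every
finite group `G`, solvable or not, which can be reached from a solvable subgroup `H` of this kind by a chain of
subgroups in which every term satisfies in the next one the double coset condition of Hall-Paige and Wilcox (for a normal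
subgroup: the quotient has a complete mapping) or has a complement of odd order.

Proof. (1) Holes: if a complete mapping of `G` maps a subgroup `L` to itself, it may be changed inside `L`; so four pairs
for `L` give four pairs for `G`. (2) Complete mappings which map `H` to itself are constructed from the double coset
condition (common transversals and the marriage theorem) and from exact factorisations `G = K H`, `|K|` odd. (3) Two-groups:
a noncyclic 2-group of order at least 16 has an element of half order or a normal noncyclic subgroup `N` whose quotient is
the four-group. The groups of order `4 m` with a cyclic subgroup of index two contain a subgroup `L` of index 4 of the same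
kind with an explicit complete mapping of the complement of `L`, given by twelve pieces; groups of order 16 and 32 are
checked by certificates. So all four pairs occur for noncyclic 2-groups of order 16 or at least 64. (4) Solvable groups: if
the largest normal subgroup of odd order has order different from 1, 3, 5, the odd order theorem of the library (all four
pairs occur for odd order different from 1, 3, 5) is used; otherwise the Sylow 2-subgroup is large and has a
complement.

Proved by helpers 4, 6, 30, 31, 32, 38, 42, 50, 55, 61, 81, 83, 91, 99 and 22.
-/

set_option autoImplicit false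

namespace Pool.Agent.Results.MP_281388_al.SolvableGroups

open H22.CM

/-- For all signs `a, b` there is a complete mapping `f` of `G` of sign `a` whose orthomorphism `x ↦ x f(x)` has
sign `b`. -/
def AllFour (G : Type) [Group G] [Finite G] : Prop :=
  ∀ [Fintype G] [DecidableEq G], ∀ a b : ℤˣ, ∃ f : Equiv.Perm G, ∃ hf : Function.Bijective (fun x : G => x * f x),
    Equiv.Perm.sign f = a ∧ Equiv.Perm.sign (Equiv.ofBijective (fun x : G => x * f x) hf) = b

/-- The Hall-Paige condition. -/
def HallPaige (G : Type) [Group G] : Prop := ∀ P : Sylow 2 G, (P : Subgroup G) = ⊥ ∨ ¬ IsCyclic (P : Subgroup G)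

/-- There are permutations `φ, ψ` of the set of double cosets of `H`, preserving the sizes and the trivial double coset,
such that `D φ(D)` meets (equivalently contains) `ψ(D)` for every double coset `D`. -/
def DoubleCosetCondition (G : Type) [Group G] (H : Subgroup G) : Prop :=
  ∃ φ ψ : Equiv.Perm (DoubleCoset.Quotient (H : Set G) (H : Set G)),
    φ (DoubleCoset.mk H H 1) = DoubleCoset.mk H H 1 ∧ ψ (DoubleCoset.mk H H 1) = DoubleCoset.mk H H 1 ∧
    (∀ d, Nat.card {x : G // DoubleCoset.mk H H x = φ d} = Nat.card {x : G // DoubleCoset.mk H H x = d}) ∧
    (∀ d, Nat.card {x : G // DoubleCoset.mk H H x = ψ d} = Nat.card {x : G // DoubleCoset.mk H H x = d}) ∧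
    ∀ d, ∃ x y : G, DoubleCoset.mk H H x = d ∧ DoubleCoset.mk H H y = φ d ∧ DoubleCoset.mk H H (x * y) = ψ d

/-- `H` has a complement `K` of odd order in `G`: `K ∩ H = 1` and `|K| |H| = |G|`. -/
def OddComplement (G : Type) [Group G] (H : Subgroup G) : Prop :=
  ∃ K : Subgroup G, Odd (Nat.card K) ∧ (∀ x, x ∈ K → x ∈ H → x = 1) ∧ Nat.card K * Nat.card H = Nat.card G

/-- There are subgroups `A = A₀ ≤ A₁ ≤ ... ≤ A_k = C` such that every `A_i` satisfies in `A_{i+1}` the double coset
condition or has a complement of odd order there. -/
inductive Reaches {G : Type} [Group G] : Subgroup G → Subgroup G → Prop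
  | refl (A : Subgroup G) : Reaches A A
  | step {A B C : Subgroup G} : Reaches A B → B ≤ C →
      DoubleCosetCondition C (B.subgroupOf C) ∨ OddComplement C (B.subgroupOf C) → Reaches A C

theorem allFour_of (G : Type) [Group G] [Finite G] (h : Pool.Agent.Y382.PAR.AllPar G) : AllFour G := by
  intro _ _
  exact (Pool.Agent.Y382.PAR.allPar_iff G).1 h

theorem reaches_of {G : Type} [Group G] {A B : Subgroup G} (h : Reaches A B) : H22.CM.Reaches A B := by
  induction h with
  | refl => exact H22.CM.Reaches.refl _
  | step h1 h2 h3 ih => exact H22.CM.Reaches.step ih h2 h3

/-- **Theorem.** There is `n` such that the following holds. Let `G` be a finite group and `H` a solvable subgroup of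
order at least `n` which satisfies the Hall-Paige condition, such that `G` is reached from `H` (for instance `H = G`).
Then `G` has complete mappings with all four pairs of signs. -/
theorem result : ∃ n : ℕ, ∀ (G : Type) [Group G] [Finite G] (H : Subgroup G), Group.IsSolvable H →
    n ≤ Nat.card H → HallPaige H → Reaches H ⊤ → AllFour G := by
  obtain ⟨n, hn⟩ := a_SOL
  refine ⟨n, fun G _ _ H hs hc hp hr => allFour_of G ?_⟩
  haveI := hs
  have h1 := hn H hc hp
  have h2 := reaches_allPar a_DCG (reaches_of hr) h1
  exact Pool.Agent.Y77.PAR.t_ISO _ _ Subgroup.topEquiv h2

end Pool.Agent.Results.MP_281388_al.SolvableGroups
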