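import Pool.Graph.R_seed8.Y382.PAR.Stm

/-!
# CREW CM (MP_281388_al): parities of complete mappings for all solvable groups

Everything lives in `Type` (universe 0). `AllPar`, `sgn`, `sgn_eq`, `sgn_mul`, `sgn_inv`, `sgn_congr` are the definitions
of the library file `Pool/Graph/R_seed8/Y382/PAR/Stm.lean` (all four sign pairs of `f` and of `F x = x * f x` occur).
To get the library files: `team-store fetch /workdir/pool Pool/Graph/R_seed8/Results/MP_281388_al/OddOrder.lean`.
A part XXX is a theorem `t_XXX : S_XXX` in your own namespace `H<seat>.CM`, file `Pool/Agent/H<seat>/CM/XXX.lean`.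
If a part depends on others, take them as hypotheses (`(h : S_YYY) : S_XXX`).
-/

set_option autoImplicit false

namespace H22.CM

open Pool.Agent.Y382.PAR

/-- `G` has a complete mapping. -/
def HasCM (G : Type) [Group G] : Prop := ∃ f F : Equiv.Perm G, ∀ x, F x = x * f x

/-- A complete mapping of the complement of the subgroup `L`. -/
def Hole (G : Type) [Group G] (L : Subgroup G) : Prop :=
  ∃ f : G → G, (∀ x, x ∉ L → f x ∉ L ∧ x * f x ∉ L) ∧ Set.InjOn f {x | x ∉ L} ∧
    Set.InjOn (fun x => x * f x) {x | x ∉ L}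

/-- The groups of order `4 m` with a cyclic subgroup `⟨c⟩` of order `2 m`, `b ∉ ⟨c⟩`, `b c b⁻¹ = c ^ r`, `b² = c ^ e`. -/
def Fam (G : Type) [Group G] (m r e : ℕ) : Prop :=
  ∃ c b : G, orderOf c = 2 * m ∧ b ∉ Subgroup.zpowers c ∧ b * c = c ^ r * b ∧ b * b = c ^ e ∧ Nat.card G = 4 * m

/-- the five types of parameters (abelian, modular, dihedral, quaternion, semidihedral) -/
def FT (m r e : ℕ) : Prop :=
  (r = 1 ∧ e = 0) ∨ (r = m + 1 ∧ e = 0) ∨ (r = 2 * m - 1 ∧ e = 0) ∨ (r = 2 * m - 1 ∧ e = m) ∨ (r = m - 1 ∧ e = 0)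

/-- Multiplication of `Fam G m r e` in coordinates: `c ^ i * b ^ ε` is the number `i + 2 m ε < 4 m`. -/
def lawF (m r e : ℕ) (x y : ℕ) : ℕ :=
  if x / (2 * m) = 0 then (x + y % (2 * m)) % (2 * m) + 2 * m * (y / (2 * m))
  else if y / (2 * m) = 0 then (x + r * y) % (2 * m) + 2 * m
  else (x + r * (y % (2 * m)) + e) % (2 * m)

/-- swap of the two bits of `n < 4` -/
def swp (n : ℕ) : ℕ := 2 * (n % 2) + n / 2

/-- Multiplication of a group of order 16 with normal subgroup `N = {0,1,2,3}` (xor) and quotient of exponent two: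
`n p^i q^j` is `n + 4 i + 8 j`; `p n p⁻¹` is `swp n` if `a = 1` and `n` if `a = 0`, `q` commutes with `N`,
`p² = u`, `q² = v`, `q p = w p q`. -/
def law16 (a u v w : ℕ) (x y : ℕ) : ℕ :=
  let n := x % 4; let i := x / 4 % 2; let j := x / 8
  let n' := y % 4; let i' := y / 4 % 2; let j' := y / 8
  (((((n ^^^ (if a = 1 ∧ i = 1 then swp n' else n')) ^^^ (if j = 1 ∧ i' = 1 then w else 0)) ^^^
    (if i = 1 ∧ i' = 1 then u else 0)) ^^^ (if j = 1 ∧ j' = 1 then v else 0))) + 4 * (i ^^^ i') + 8 * (j ^^^ j')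

/-- the 72 laws -/
def LT (a u v w : ℕ) : Prop :=
  (a = 0 ∧ u < 4 ∧ v < 4 ∧ w < 4) ∨ (a = 1 ∧ (u = 0 ∨ u = 3) ∧ (v = 0 ∨ v = 3) ∧ (w = 0 ∨ w = 3))

/-- All four sign pairs for a binary operation on `{0, ..., n-1}` given by a function on natural numbers. -/
def OpAll (n : ℕ) (mul : ℕ → ℕ → ℕ) : Prop :=
  ∀ ε δ : ℤˣ, ∃ f F : Equiv.Perm (Fin n), (∀ x, (F x : ℕ) = mul x (f x)) ∧ sgn f = ε ∧ sgn F = δ

/-- A complete mapping for a binary operation. -/
def OpCM (n : ℕ) (mul : ℕ → ℕ → ℕ) : Prop :=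
  ∃ f F : Equiv.Perm (Fin n), ∀ x, (F x : ℕ) = mul x (f x)

/-- Coordinates. -/
def Coo (G : Type) [Group G] (n : ℕ) (mul : ℕ → ℕ → ℕ) : Prop :=
  ∃ E : Fin n ≃ G, ∀ x y z : Fin n, mul x y = z → E x * E y = E z

/-! ## General lemmas -/

/-- **HOLE** (60 lines). Proof: let `f0` be the given map outside `L`; for a complete mapping `ψ, Ψ` of `L` let
`f = ψ` on `L` and `f0` outside; `f` and `F x = x * f x` are injective (values in `L` resp. outside), hence permutations.
Fix `(ψ0, Ψ0)`; `f_ψ = f_ψ0 * ofSubtype (ψ0⁻¹ * ψ)`, the same for `F`; so all signs are changed by those of `L`.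
(Compare the proof of `Pool.Agent.Y410.PAR.t_EXT`, last third, `Pool/Graph/R_seed8/Y410/PAR/EXT.lean`.) -/
def S_HOLE : Prop := ∀ (G : Type) [Group G] [Finite G] (L : Subgroup G), Hole G L → AllPar L → AllPar G

/-- **HOC** (25 lines). As HOLE, existence only. -/
def S_HOC : Prop := ∀ (G : Type) [Group G] [Finite G] (L : Subgroup G), Hole G L → HasCM L → HasCM G

/-- **EXC** (60 lines). The existence part of `Pool.Agent.Y410.PAR.t_EXT` (adapt its proof: `ff`, `ff_inj`,
`mul_ff_inj` there are for an arbitrary family `Φ : G ⧸ N → N → N`). -/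
def S_EXC : Prop := ∀ (G : Type) [Group G] [Finite G] (N : Subgroup G) [N.Normal],
  HasCM (G ⧸ N) → HasCM N → HasCM G

/-- **FAC** (120 lines). Exact factorisation `G = K P`, `K` of odd order. Proof: every `x : G` is uniquely `x = u * p`
with `u ∈ K`, `p ∈ P` (write `κ x = u`, `ϖ x = p`). Let `g, g'` be a complete mapping of `P`, `g' p = p * g p`. Put, for
`x = u * p` and `q = g' p`,  `f x = g p * κ (q⁻¹ * u)`. Then `x * f x = u * q * κ (q⁻¹ u) = u ^ 2 * (ϖ (q⁻¹ u))⁻¹`.
`f` is injective: `f x` determines `g p` and `w = κ (q⁻¹ u)` (uniqueness of the factorisation `P K`), and then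
`q⁻¹ u = w p₁`, `q⁻¹ u' = w p₂` give `u⁻¹ u' ∈ P ∩ K = 1`. `x * f x` is injective: it determines `u²`, hence `u` (odd
order), and `p₁ = ϖ (q⁻¹ u)`; `q⁻¹ u = w p₁`, `q₂⁻¹ u = w₂ p₁` give `q⁻¹ q₂ = w w₂⁻¹ ∈ K ∩ P = 1`. If `x ∉ P`, i.e.
`u ≠ 1`, then `κ (q⁻¹ u) ≠ 1` (else `u ∈ P`), so `f x ∉ P`, and `u² ≠ 1`, so `x * f x ∉ P`. -/
def S_FAC : Prop := ∀ (G : Type) [Group G] [Finite G] (K P : Subgroup G), Odd (Nat.card K) →
  (∀ x, x ∈ K → x ∈ P → x = 1) → Nat.card K * Nat.card P = Nat.card G → HasCM P → Hole G P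

/-- **HAL** (120 lines). Solvable groups have a 2-complement. Proof: strong induction on the order. Take a nontrivial
normal `p`-subgroup `N` of `G` (the last nontrivial term of the derived series is abelian and normal, a Sylow subgroup
of it is characteristic in it, hence normal in `G`). Induction for `G ⧸ N`: a subgroup `H ≥ N` with `H / N` of odd order
and index a power of 2. If `p` is odd, `K = H`. If `p = 2`, Schur-Zassenhaus
(`Subgroup.exists_left_complement'_of_coprime` / `exists_right_complement'_of_coprime`) gives a complement `K` of `N`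
in `H`. -/
def S_HAL : Prop := ∀ (G : Type) [Group G] [Finite G] [Group.IsSolvable G],
  ∃ K : Subgroup G, Odd (Nat.card K) ∧ ∃ n : ℕ, Nat.card K * 2 ^ n = Nat.card G

/-- **NPS** (60 lines). A nontrivial finite solvable group has a nontrivial normal `p`-subgroup; relative version:
inside a nontrivial normal subgroup `C` of `G`. Proof: `C` is solvable; let `A` be the last nontrivial term of its
derived series (characteristic in `C`, so normal in `G`, abelian); take a prime `p` dividing `|A|` and the Sylow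
`p`-subgroup of `A` (normal in the abelian `A`, hence characteristic in `A`, hence normal in `G`). -/
def S_NPS : Prop := ∀ (G : Type) [Group G] [Finite G] (C : Subgroup G) [C.Normal], Group.IsSolvable C → C ≠ ⊥ →
  ∃ (p : ℕ) (N : Subgroup G), p.Prime ∧ N.Normal ∧ IsPGroup p N ∧ N ≠ ⊥ ∧ N ≤ C

/-- **BIG** (180 lines, may use NPS). Let `T` be a normal 2-subgroup of maximal order, `|T| ≤ n` (it lies in a Sylow
2-subgroup), `C = C_X(T)`, normal. Claim `C ≤ T`; then `|X| = |C| |X / C| ≤ |T| |Aut T| ≤ n n!`. Proof of the claim: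
`Z = C ∩ T` is central in `C`. If `C ≠ Z`, apply NPS in `X ⧸ Z` to the image of `C`: a normal subgroup `D` of `X` with
`Z < D ≤ C` and `D / Z` a `p`-group. If `p = 2`, `D` is a normal 2-subgroup, and `T D` is a larger normal 2-subgroup than
`T` (as `D ≤ T` would give `D ≤ Z`). If `p` is odd: `Z` is a central 2-subgroup of `D` and `D / Z` is a `p`-group; a
Sylow `p`-subgroup `S` of `D` satisfies `D = Z S`, so it is normal in `D` (`Z` is central), hence characteristic in `D`
(`Sylow.characteristic_of_normal` or similar), hence normal in `X`, of odd order and nontrivial: contradiction. -/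
def S_BIG : Prop := ∀ (X : Type) [Group X] [Finite X] [Group.IsSolvable X] (n : ℕ),
  (∀ T : Subgroup X, IsPGroup 2 T → Nat.card T ≤ n) →
  (∀ N : Subgroup X, N.Normal → Odd (Nat.card N) → N = ⊥) → Nat.card X ≤ n * n.factorial

/-- **RAD** (100 lines). Largest normal subgroup `R` of odd order; passing to the quotient. The last item: a 2-subgroup
of `G ⧸ R` is the image of a 2-subgroup of `G` of the same order (Schur-Zassenhaus in its preimage, or Sylow);
if `P` is a Sylow 2-subgroup of `G`, then its image is a Sylow 2-subgroup of `G ⧸ R` isomorphic to `P` (as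
`P ∩ R = 1`), and all Sylow 2-subgroups of `G ⧸ R` are conjugate. -/
def S_RAD : Prop := ∀ (G : Type) [Group G] [Finite G],
  ∃ (R : Subgroup G) (_ : R.Normal), Odd (Nat.card R) ∧
    (∀ N : Subgroup (G ⧸ R), N.Normal → Odd (Nat.card N) → N = ⊥) ∧
    (∀ (P : Sylow 2 G) (Q : Sylow 2 (G ⧸ R)), Nonempty ((P : Subgroup G) ≃* (Q : Subgroup (G ⧸ R)))) ∧
    (∀ (P : Sylow 2 G) (T : Subgroup (G ⧸ R)), IsPGroup 2 T → Nat.card T ≤ Nat.card P)

/-! ## Two-groups -/

/-- **STR** (200 lines). Proof. Let `|P| = 2^n`, `n ≥ 4`. As `P` is not cyclic it has two different subgroups `M₁, M₂` of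
index two (a 2-group with a unique maximal subgroup is cyclic); `N = M₁ ∩ M₂` is normal of index 4 and contains all
squares. If `N` is not cyclic we are done. Let `N = ⟨y⟩`, of order `≥ 4`. If some `x ∉ N` has `x²` generating `N`,
then `x` has order `|P|/2`, excluded. So `x² ∈ N² := ⟨y²⟩` for all `x ∈ P`, and `P / N²` is elementary abelian of
order 8. If one of the subgroups `N' = N² ∪ x N²`, `x ∉ N²`, is not cyclic, take it (index 4, normal, contains all
squares). Otherwise each `x ∉ N²` generates `N' = ⟨x⟩` (`N²` is the only maximal subgroup of the cyclic 2-group `N'`),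
so `x²` generates `N²`, i.e. `x² ∉ N⁴ := ⟨y⁴⟩`, for all `x ∉ N²`. Modulo `N⁴`: `P / N⁴` has order 16, `Z = N² / N⁴`
has order 2, is normal, hence central, and every element outside `Z` has square `z`, the generator of `Z`. For `x, y`
independent modulo `Z`: `z = (x y)² = x² [x⁻¹, y] y² ...= [x, y] z z`, so `[x, y] = z`. For `x, y, w` independent
modulo `Z` then `[x, y w] = [x, y] [x, w] = 1`, but `x, y w` are independent: contradiction. -/
def S_STR : Prop := ∀ (P : Type) [Group P] [Finite P], IsPGroup 2 P → 16 ≤ Nat.card P → ¬ IsCyclic P →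
  (∀ x : P, orderOf x * 2 ≠ Nat.card P) →
  ∃ N : Subgroup P, N.Normal ∧ ¬ IsCyclic N ∧ Nat.card N * 4 = Nat.card P ∧ ∀ x : P, x * x ∈ N

/-- **STI** (80 lines): index two inside `N`. `P` a finite 2-group, `N` normal, `|N| ≥ 2`, not of the form with an element
of order `|N|/2`: then there is a normal subgroup `N₂` of `P`, `N₂ ≤ N`, of index 2 in `N`, and it is not cyclic.
Proof: existence of `N₂`: a maximal `P`-normal subgroup of `N`; the quotient is a minimal normal subgroup of
the 2-group `P / N₂`, so it meets the centre and has order 2. If `N₂` were cyclic, its generator would have order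
`|N| / 2`. -/
def S_STI : Prop := ∀ (P : Type) [Group P] [Finite P] (N : Subgroup P), IsPGroup 2 P → N.Normal → N ≠ ⊥ →
  (∀ x : N, orderOf x * 2 ≠ Nat.card N) →
  ∃ N₂ : Subgroup P, N₂.Normal ∧ N₂ ≤ N ∧ Nat.card N₂ * 2 = Nat.card N ∧ ¬ IsCyclic N₂

/-- **VCM** (30 lines). The quotient of order 4 and exponent 2: with elements `1, s, t, st`, `f = (1 → 1, s → t, t → st,
st → s)`; the products are `1, st, s, t`. -/
def S_VCM : Prop := ∀ (Q : Type) [Group Q], Nat.card Q = 4 → (∀ x : Q, x * x = 1) → HasCM Q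

/-- **CLS** (150 lines). Classification of the noncyclic 2-groups of order `4 m`, `m = 2 ^ k`, `k ≥ 1`, with an element
`c` of order `2 m`. Proof: `⟨c⟩` has index two, is normal; take `b ∉ ⟨c⟩`; `b c b⁻¹ = c ^ r`, `b² = c ^ e`,
`r² ≡ 1` and `r e ≡ e` mod `2 m`. So `r ∈ {1, m + 1, 2m - 1, m - 1}` mod `2 m` (one of `r - 1`, `r + 1` is `2` mod `4`).
`(b c^k)² = b² (b⁻¹ c^k b) c^k = c ^ (e + (r + 1) k)`. `r = 1`: `e` is even (otherwise `b` generates), `k = -e/2`.
`r = m + 1`, `m ≥ 4`: `e` is even since `m e ≡ 0`, and `(m + 2) k` takes all even values, so `e` can be made `0`.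
`r = 2m - 1`: `2 e ≡ 0`, so `e ∈ {0, m}`. `r = m - 1`, `m ≥ 4`: `(m - 2) e ≡ 0` mod `2 m` gives `e ∈ {0, m}`, and `e = m`
becomes `0` with `k = 1`. (For `m = 2`: `m + 1 = 2m - 1`, `m - 1 = 1`.) -/
def S_CLS : Prop := ∀ (G : Type) [Group G] [Finite G] (k : ℕ), 1 ≤ k → Nat.card G = 4 * 2 ^ k → ¬ IsCyclic G →
  (∃ x : G, orderOf x * 2 = Nat.card G) → ∃ r e : ℕ, FT (2 ^ k) r e ∧ Fam G (2 ^ k) r e

/-- **COO** (80 lines). Coordinates `E (i + 2 m ε) = c ^ i * b ^ ε`. -/
def S_COO : Prop := ∀ (G : Type) [Group G] [Finite G] (m r e : ℕ), 1 ≤ m → Fam G m r e → Coo G (4 * m) (lawF m r e)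

/-- **COV** (150 lines). A group `H` of order 16 with a normal subgroup `N`, noncyclic of order 4, containing all squares.
Proof: `H / N` has order 4 and exponent 2. Conjugation gives `H → Perm (N ∖ 1)` with values of order `≤ 2` that commute
(all squares are in the abelian `N`): so there is `n₃ ∈ N ∖ 1` fixed by `H`; write `N = {1, n₁, n₂, n₃}`, every
element of `H` either centralises `N` or swaps `n₁, n₂`. If all of `H` centralises `N` take any `p, q` generating
`H` modulo `N` (`a = 0`). Otherwise take `p` swapping, and `q` centralising `N`, `q ∉ N` (the centraliser has index two,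
order 8) (`a = 1`). `u = p²`, `v = q²`, `w = q p q⁻¹ p⁻¹ ∈ N`; if `a = 1`: `p u = u p` so `u ∈ {1, n₃}`;
`q² p q⁻² = w² p = p` gives `v p v⁻¹ = p`, so `v ∈ {1, n₃}`; `(w p)² = q p² q⁻¹ = p²` gives `w (p w p⁻¹) = 1`, so
`w ∈ {1, n₃}`. The elements `n p^i q^j` are all of `H`; multiply. -/
def S_COV : Prop := ∀ (H : Type) [Group H] [Finite H] (N : Subgroup H), Nat.card H = 16 → N.Normal → ¬ IsCyclic N →
  Nat.card N = 4 → (∀ x : H, x * x ∈ N) → ∃ a u v w : ℕ, LT a u v w ∧ Coo H 16 (law16 a u v w)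

/-- **TRO** (40 lines). Transport along coordinates. -/
def S_TRO : Prop := ∀ (G : Type) [Group G] [Finite G] (n : ℕ) (mul : ℕ → ℕ → ℕ), Coo G n mul →
  (OpAll n mul → AllPar G) ∧ (OpCM n mul → HasCM G)

/-- **V72** (certificates, see `Tab.lean`). -/
def S_V72 : Prop := ∀ a u v w : ℕ, LT a u v w → OpAll 16 (law16 a u v w)

/-- **F16** (certificates, see `Tab.lean`). -/
def S_F16 : Prop := ∀ r e : ℕ, FT 4 r e → OpAll 16 (lawF 4 r e)

/-- **F32** (certificates, see `Tab.lean`). -/
def S_F32 : Prop := ∀ r e : ℕ, FT 8 r e → OpAll 32 (lawF 8 r e)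

/-- **F8** (certificates, see `Tab.lean`). -/
def S_F8 : Prop := ∀ r e : ℕ, FT 2 r e → OpCM 8 (lawF 2 r e)

/-- **STP** (250 lines; may be split). The step `m = 4 K`, `K` even. `L = ⟨c⁴, b⟩` consists of the `c ^ i b ^ ε` with
`4 ∣ i`; it is of type `Fam L K r' e'` with generators `c⁴, b` (`r' = 1` for `r = 1, m + 1`; `r' = 2 K - 1` for
`r = 2 m - 1, m - 1`; `e' = 0` or `K`). The map `f` outside `L` is given by twelve pieces `(ρ, ε, h) → (ρ', δ, κ, s)`:
for `0 ≤ t < K`, the element `c ^ (4 (h K + t) + ρ) b ^ ε` goes to `c ^ (4 (s + κ K + t) + ρ') b ^ δ`, except that for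
the second table (`r = 2 m - 1, m - 1`) and `ε = 1` it goes to `c ^ (4 (s + κ K + (K - 1 - t)) + ρ') b ^ δ`. Tables:
`r = 1, m + 1`: (1,0,0)→(1,0,0,0), (1,0,1)→(1,1,0,0), (1,1,0)→(2,0,0,1), (1,1,1)→(2,1,0,1), (2,0,0)→(1,0,1,0),
(2,0,1)→(1,1,1,0), (2,1,0)→(3,0,0,0), (2,1,1)→(3,1,0,0), (3,0,0)→(2,0,1,1), (3,0,1)→(2,1,1,1), (3,1,0)→(3,0,1,0),
(3,1,1)→(3,1,1,0).
`r = 2m - 1, m - 1`: (1,0,0)→(1,0,0,0), (1,0,1)→(1,1,0,0), (1,1,0)→(2,0,0,1), (1,1,1)→(2,1,0,1), (2,0,0)→(1,0,1,0),
(2,0,1)→(3,1,0,0), (2,1,0)→(1,1,1,0), (2,1,1)→(3,0,0,0), (3,0,0)→(3,0,1,0), (3,0,1)→(3,1,1,0), (3,1,0)→(2,0,1,1),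
(3,1,1)→(2,1,1,1).
The rows `(ρ, ε, h, t)` are all elements outside `L`, once; so are the columns (`s` depends only on `ρ'`), and the
products: the exponent of `c` in the product of the row and the column is, modulo `2 m = 8 K`,
`8 t + const + ρ ± ρ'` (an exponent `c ^ m` from `r` or `e` changes it by `4 K`, a multiple of 8), so modulo 8 and with
the exponent of `b` it determines the piece (a finite check), and then `8 t` modulo `8 K` determines `t`.
(Checked by computer for `m = 8, 16, 24, 32, 40, 64`, all types.) -/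
def S_STP : Prop := ∀ (G : Type) [Group G] [Finite G] (K r e : ℕ), 2 ≤ K → Even K → FT (4 * K) r e →
  Fam G (4 * K) r e → ∃ (L : Subgroup G) (r' e' : ℕ), Hole G L ∧ FT K r' e' ∧ Fam L K r' e'

/-- **FAM** (40 lines, from HOLE COO TRO F16 F32 STP by strong induction: `k = 2, 3`, then `K = 2 ^ (k - 2)`). -/
def S_FAM : Prop := ∀ (G : Type) [Group G] [Finite G] (k r e : ℕ), 2 ≤ k → FT (2 ^ k) r e → Fam G (2 ^ k) r e → AllPar G

/-- **TWO** (150 lines, from FAM CLS STR STI VCM COV TRO V72 and the library `Pool.Agent.Y410.PAR.t_EXT`). Strong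
induction on the order `2 ^ n`, `n = 4` or `n ≥ 6`. If `P` has an element of order `|P|/2`: CLS and FAM. Otherwise STR gives
`N`, with `P / N` of order 4 and exponent 2 (VCM). `n = 4`: COV, TRO, V72. `n = 6` or `n ≥ 8`: induction for `N`
(order `2 ^ (n-2)`) and EXT. `n = 7`: `|N| = 32`: if `N` has an element of order 16, CLS and FAM for `N`, and EXT. If
not, STI gives `N₂` of order 16, not cyclic, normal in `P`: induction (`n = 4`) for `N₂`, and `P / N₂` has order 8 and is
not cyclic (its quotient `P / N` is not cyclic), so it has a complete mapping by HP2. -/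
def S_TWO : Prop := ∀ (P : Type) [Group P] [Finite P], IsPGroup 2 P → ¬ IsCyclic P →
  (Nat.card P = 16 ∨ 64 ≤ Nat.card P) → AllPar P

/-- **HPT** (120 lines, from FAM CLS COO TRO F8 STR VCM EXC E8): every noncyclic 2-group has a complete mapping. Strong
induction. Order 4: exponent 2, VCM. Order 8: if there is an element of order 4, CLS (`k = 1`), COO, TRO, F8; otherwise
exponent two: E8. Order `≥ 16`: if there is an element of order `|P|/2`, CLS and FAM (all sign pairs). Otherwise STR,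
VCM, induction for `N`, EXC. -/
def S_HPT : Prop := ∀ (P : Type) [Group P] [Finite P], IsPGroup 2 P → ¬ IsCyclic P → HasCM P

/-- **E8** (50 lines). The elementary abelian group of order 8: coordinates `a^i b^j c^k`; a linear map `A` of `𝔽₂³` with
`A` and `1 + A` invertible, for instance `a ↦ b`, `b ↦ c`, `c ↦ a b`. -/
def S_E8 : Prop := ∀ (P : Type) [Group P], Nat.card P = 8 → (∀ x : P, x * x = 1) → HasCM P

/-! ## Solvable groups -/

/-- **SOC** (60 lines, from HAL FAC HOC HPT; odd order: `Pool.Agent.Y382.PAR.odd_cm`). If the Sylow 2-subgroup `P` is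
not cyclic: `K` from HAL, `|K| |P| = |G|`, `K ∩ P = 1` by coprimality; HPT gives `HasCM P`. -/
def S_SOC : Prop := ∀ (G : Type) [Group G] [Finite G] [Group.IsSolvable G],
  (∀ P : Sylow 2 G, (P : Subgroup G) = ⊥ ∨ ¬ IsCyclic (P : Subgroup G)) → HasCM G

/-- **COM** (40 lines, from FAC HOLE TWO): groups with a 2-complement and a noncyclic Sylow 2-subgroup of order 16 or at
least 64. -/
def S_COM : Prop := ∀ (G : Type) [Group G] [Finite G] (K P : Subgroup G), Odd (Nat.card K) → IsPGroup 2 P →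
  Nat.card K * Nat.card P = Nat.card G → ¬ IsCyclic P → (Nat.card P = 16 ∨ 64 ≤ Nat.card P) → AllPar G

/-- **SOL** (120 lines, from RAD BIG SOC HAL COM, the library theorems `Pool.Agent.Results.MP_281388_al.OddOrder.main`
(odd order) and `t_EXT`). `N = 5 * 32 * 32! + 8`, say. If `|G|` is odd: library. Otherwise let `R` be as in RAD. If
`|R| ∉ {1, 3, 5}` then `AllPar R` (library), `G ⧸ R` has a complete mapping (SOC, RAD), EXT. If `|R| ≤ 5` and
`|P| ≤ 32` then `|G| ≤ 5 * 32 * 32!` by BIG. If `|P| ≥ 64`: HAL and COM. -/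
def S_SOL : Prop := ∃ n : ℕ, ∀ (G : Type) [Group G] [Finite G] [Group.IsSolvable G], n ≤ Nat.card G →
  (∀ P : Sylow 2 G, (P : Subgroup G) = ⊥ ∨ ¬ IsCyclic (P : Subgroup G)) → AllPar G

end H22.CM
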