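import Pool.Agent.H22.CM.Stm2

/-!
# Certificates for S4 and A4

The elements of `Equiv.Perm (Fin 4)` as lists of values, in lexicographic order; multiplication tables (row `x`, column
`y`: the number of `x * y`, `(x * y) i = x (y i)`); complete mappings as lists of values, for the signs `(f, F)` =
`(+,+), (+,-), (-,+), (-,-)`.
-/

set_option autoImplicit false

namespace H22.CM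

def eltS4 : List (List ℕ) := [[0, 1, 2, 3], [0, 1, 3, 2], [0, 2, 1, 3], [0, 2, 3, 1], [0, 3, 1, 2], [0, 3, 2, 1], [1, 0, 2, 3], [1, 0, 3, 2], [1, 2, 0, 3], [1, 2, 3, 0], [1, 3, 0, 2], [1, 3, 2, 0], [2, 0, 1, 3], [2, 0, 3, 1], [2, 1, 0, 3], [2, 1, 3, 0], [2, 3, 0, 1], [2, 3, 1, 0], [3, 0, 1, 2], [3, 0, 2, 1], [3, 1, 0, 2], [3, 1, 2, 0], [3, 2, 0, 1], [3, 2, 1, 0]]

def mulS4 : List (List ℕ) := [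
  [0, 1, 2, 3, 4, 5, 6, 7, 8, 9, 10, 11, 12, 13, 14, 15, 16, 17, 18, 19, 20, 21, 22, 23],
  [1, 0, 4, 5, 2, 3, 7, 6, 10, 11, 8, 9, 18, 19, 20, 21, 22, 23, 12, 13, 14, 15, 16, 17],
  [2, 3, 0, 1, 5, 4, 12, 13, 14, 15, 16, 17, 6, 7, 8, 9, 10, 11, 19, 18, 22, 23, 20, 21],
  [3, 2, 5, 4, 0, 1, 13, 12, 16, 17, 14, 15, 19, 18, 22, 23, 20, 21, 6, 7, 8, 9, 10, 11],
  [4, 5, 1, 0, 3, 2, 18, 19, 20, 21, 22, 23, 7, 6, 10, 11, 8, 9, 13, 12, 16, 17, 14, 15],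
  [5, 4, 3, 2, 1, 0, 19, 18, 22, 23, 20, 21, 13, 12, 16, 17, 14, 15, 7, 6, 10, 11, 8, 9],
  [6, 7, 8, 9, 10, 11, 0, 1, 2, 3, 4, 5, 14, 15, 12, 13, 17, 16, 20, 21, 18, 19, 23, 22],
  [7, 6, 10, 11, 8, 9, 1, 0, 4, 5, 2, 3, 20, 21, 18, 19, 23, 22, 14, 15, 12, 13, 17, 16],
  [8, 9, 6, 7, 11, 10, 14, 15, 12, 13, 17, 16, 0, 1, 2, 3, 4, 5, 21, 20, 23, 22, 18, 19],
  [9, 8, 11, 10, 6, 7, 15, 14, 17, 16, 12, 13, 21, 20, 23, 22, 18, 19, 0, 1, 2, 3, 4, 5],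
  [10, 11, 7, 6, 9, 8, 20, 21, 18, 19, 23, 22, 1, 0, 4, 5, 2, 3, 15, 14, 17, 16, 12, 13],
  [11, 10, 9, 8, 7, 6, 21, 20, 23, 22, 18, 19, 15, 14, 17, 16, 12, 13, 1, 0, 4, 5, 2, 3],
  [12, 13, 14, 15, 16, 17, 2, 3, 0, 1, 5, 4, 8, 9, 6, 7, 11, 10, 22, 23, 19, 18, 21, 20],
  [13, 12, 16, 17, 14, 15, 3, 2, 5, 4, 0, 1, 22, 23, 19, 18, 21, 20, 8, 9, 6, 7, 11, 10],
  [14, 15, 12, 13, 17, 16, 8, 9, 6, 7, 11, 10, 2, 3, 0, 1, 5, 4, 23, 22, 21, 20, 19, 18],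
  [15, 14, 17, 16, 12, 13, 9, 8, 11, 10, 6, 7, 23, 22, 21, 20, 19, 18, 2, 3, 0, 1, 5, 4],
  [16, 17, 13, 12, 15, 14, 22, 23, 19, 18, 21, 20, 3, 2, 5, 4, 0, 1, 9, 8, 11, 10, 6, 7],
  [17, 16, 15, 14, 13, 12, 23, 22, 21, 20, 19, 18, 9, 8, 11, 10, 6, 7, 3, 2, 5, 4, 0, 1],
  [18, 19, 20, 21, 22, 23, 4, 5, 1, 0, 3, 2, 10, 11, 7, 6, 9, 8, 16, 17, 13, 12, 15, 14],
  [19, 18, 22, 23, 20, 21, 5, 4, 3, 2, 1, 0, 16, 17, 13, 12, 15, 14, 10, 11, 7, 6, 9, 8],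
  [20, 21, 18, 19, 23, 22, 10, 11, 7, 6, 9, 8, 4, 5, 1, 0, 3, 2, 17, 16, 15, 14, 13, 12],
  [21, 20, 23, 22, 18, 19, 11, 10, 9, 8, 7, 6, 17, 16, 15, 14, 13, 12, 4, 5, 1, 0, 3, 2],
  [22, 23, 19, 18, 21, 20, 16, 17, 13, 12, 15, 14, 5, 4, 3, 2, 1, 0, 11, 10, 9, 8, 7, 6],
  [23, 22, 21, 20, 19, 18, 17, 16, 15, 14, 13, 12, 11, 10, 9, 8, 7, 6, 5, 4, 3, 2, 1, 0]]

def cmS4 : List (List ℕ) := [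
  [5, 4, 6, 19, 8, 16, 20, 13, 10, 9, 0, 17, 14, 12, 7, 21, 15, 2, 1, 3, 11, 22, 18, 23],
  [11, 18, 1, 6, 8, 17, 2, 5, 14, 12, 10, 4, 21, 20, 16, 23, 0, 7, 9, 13, 3, 15, 19, 22],
  [9, 5, 17, 7, 22, 12, 0, 2, 3, 19, 20, 8, 23, 18, 14, 16, 15, 11, 4, 6, 1, 13, 10, 21],
  [18, 21, 3, 15, 12, 8, 14, 7, 1, 4, 9, 22, 17, 0, 10, 23, 19, 20, 2, 5, 16, 13, 11, 6]]

def eltA4 : List (List ℕ) := [[0, 1, 2, 3], [0, 2, 3, 1], [0, 3, 1, 2], [1, 0, 3, 2], [1, 2, 0, 3], [1, 3, 2, 0], [2, 0, 1, 3], [2, 1, 3, 0], [2, 3, 0, 1], [3, 0, 2, 1], [3, 1, 0, 2], [3, 2, 1, 0]]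

def mulA4 : List (List ℕ) := [
  [0, 1, 2, 3, 4, 5, 6, 7, 8, 9, 10, 11],
  [1, 2, 0, 6, 8, 7, 9, 11, 10, 3, 4, 5],
  [2, 0, 1, 9, 10, 11, 3, 5, 4, 6, 8, 7],
  [3, 5, 4, 0, 2, 1, 10, 9, 11, 7, 6, 8],
  [4, 3, 5, 7, 6, 8, 0, 1, 2, 10, 11, 9],
  [5, 4, 3, 10, 11, 9, 7, 8, 6, 0, 2, 1],
  [6, 7, 8, 1, 0, 2, 4, 3, 5, 11, 9, 10],
  [7, 8, 6, 4, 5, 3, 11, 10, 9, 1, 0, 2],
  [8, 6, 7, 11, 9, 10, 1, 2, 0, 4, 5, 3],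
  [9, 11, 10, 2, 1, 0, 8, 6, 7, 5, 3, 4],
  [10, 9, 11, 5, 3, 4, 2, 0, 1, 8, 7, 6],
  [11, 10, 9, 8, 7, 6, 5, 4, 3, 2, 1, 0]]

def cmA4 : List (List ℕ) := [
  [6, 4, 2, 7, 9, 10, 1, 5, 8, 11, 3, 0],
  [10, 3, 8, 5, 6, 7, 1, 4, 11, 0, 2, 9],
  [4, 1, 5, 6, 2, 9, 10, 0, 11, 7, 8, 3],
  [3, 6, 2, 11, 10, 9, 5, 4, 1, 8, 0, 7]]

end H22.CM
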